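import Pool.Agent.W209.KT.Stm

set_option autoImplicit false

open Filter MeasureTheory

namespace Pool.Agent.W141.KT

open Pool.Agent.W209.KT

lemma nrm_le (x : ℝ) (z : ℤ) : nrm x ≤ |x - z| := round_le x z

lemma nrm_sub (x y : ℝ) : nrm (x - y) ≤ nrm x + nrm y := by
  refine (nrm_le (x - y) (round x - round y)).trans ?_
  have h : x - y - ((round x - round y : ℤ) : ℝ) = (x - round x) - (y - round y) := by
    push_cast; ring
  rw [h]
  exact abs_sub _ _

/-- the linear form -/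
noncomputable def ze (A : Fin 2 → Fin 11 → ℝ) (j : Fin 2) (a : ℕ × (Fin 10 → ℤ)) : ℝ :=
  A j 0 * a.1 + ∑ l : Fin 10, A j l.succ * a.2 l

open Classical in
/-- the index set -/
noncomputable def II (A : Fin 2 → Fin 11 → ℝ) (R Q : ℕ) (ψ : ℝ) : Finset (ℕ × (Fin 10 → ℤ)) :=
  ((Finset.Ico Q (2 * Q)) ×ˢ (Fintype.piFinset fun _ : Fin 10 =>
    Finset.Icc (-(3 * Q * R : ℤ)) (3 * Q * R))).filter fun a => ∀ j, nrm (ze A j a) ≤ 11 * ψ

lemma ze_sub (A : Fin 2 → Fin 11 → ℝ) (j : Fin 2) (q : ℕ) (y y0 : Fin 10 → ℤ)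
    (h : ∀ l : Fin 9, y l.castSucc = y0 l.castSucc) :
    A j 10 * ((y (Fin.last 9) - y0 (Fin.last 9) : ℤ) : ℝ) = ze A j (q, y) - ze A j (q, y0) := by
  unfold ze
  simp only [Fin.sum_univ_castSucc (n := 9), h]
  have h10 : (Fin.last 9).succ = (10 : Fin 11) := rfl
  rw [h10]
  push_cast
  ring

lemma card_II (A : Fin 2 → Fin 11 → ℝ) (R Q : ℕ) (ψ : ℝ) :
    (II A R Q ψ).card ≤ cnt (fun j => A j 10) (8 * R * Q) (22 * ψ) *
      (Q * (6 * Q * R + 1) ^ 9) := by
  classical
  have hT : ({y : ℤ | |y| ≤ ((8 * R * Q : ℕ) : ℤ) ∧ ∀ j, nrm (A j 10 * y) ≤ 22 * ψ} :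
      Set ℤ).Finite := by
    apply (Set.finite_Icc (-((8 * R * Q : ℕ) : ℤ)) ((8 * R * Q : ℕ) : ℤ)).subset
    rintro y ⟨hy, -⟩
    exact abs_le.1 hy
  have hJ : ((Finset.Ico Q (2 * Q)) ×ˢ (Fintype.piFinset fun _ : Fin 9 =>
    Finset.Icc (-(3 * Q * R : ℤ)) (3 * Q * R))).card = Q * (6 * Q * R + 1) ^ 9 := by
    rw [Finset.card_product, Nat.card_Ico, Fintype.card_piFinset]
    simp only [Int.card_Icc, Finset.prod_const, Finset.card_univ, Fintype.card_fin]
    congr 1
    · omega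
    · congr 1
      have : (3 * (Q : ℤ) * R + 1 - -(3 * Q * R)) = ((6 * Q * R + 1 : ℕ) : ℤ) := by
        push_cast; ring
      rw [this]; rfl
  rw [← hJ]
  apply Finset.card_le_mul_card_image_of_maps_to
    (f := fun a : ℕ × (Fin 10 → ℤ) => (a.1, fun l : Fin 9 => a.2 l.castSucc))
  · intro a ha
    simp only [II, Finset.mem_filter, Finset.mem_product, Fintype.mem_piFinset] at ha
    simp only [Finset.mem_product, Fintype.mem_piFinset]
    exact ⟨ha.1.1, fun l => ha.1.2 _⟩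
  · intro b _
    unfold cnt
    rw [Set.ncard_eq_toFinset_card _ hT]
    rcases (Finset.filter (fun a : ℕ × (Fin 10 → ℤ) =>
      (a.1, fun l : Fin 9 => a.2 l.castSucc) = b) (II A R Q ψ)).eq_empty_or_nonempty with he | he
    · rw [he]; simp
    · obtain ⟨⟨q0, y0⟩, h0⟩ := he
      simp only [II, Finset.mem_filter, Finset.mem_product, Fintype.mem_piFinset,
        Finset.mem_Icc] at h0
      obtain ⟨⟨⟨-, h01⟩, h02⟩, h03⟩ := h0
      apply Finset.card_le_card_of_injOn
        (fun a : ℕ × (Fin 10 → ℤ) => a.2 (Fin.last 9) - y0 (Fin.last 9))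
      · rintro ⟨q, y⟩ ha
        simp only [II, Finset.coe_filter, Finset.mem_filter, Finset.mem_product,
          Fintype.mem_piFinset, Finset.mem_Icc, Set.mem_ofPred_eq] at ha
        obtain ⟨⟨⟨-, h1⟩, h2⟩, h3⟩ := ha
        have h4 := h3.trans h03.symm
        have hq : q = q0 := congrArg Prod.fst h4
        have hy : ∀ l : Fin 9, y l.castSucc = y0 l.castSucc := fun l =>
          congrFun (congrArg Prod.snd h4) l
        subst hq
        simp only [Set.Finite.coe_toFinset, Set.mem_ofPred_eq]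
        refine ⟨?_, fun j => ?_⟩
        · have h5 := h1 (Fin.last 9)
          have h6 := h01 (Fin.last 9)
          have h7 : (0 : ℤ) ≤ Q * R := by positivity
          have h8 : ((8 * R * Q : ℕ) : ℤ) = 8 * (Q * R) := by push_cast; ring
          rw [h8, abs_le]
          constructor <;> linarith [h5.1, h5.2, h6.1, h6.2]
        · rw [ze_sub A j q y y0 hy]
          refine (nrm_sub _ _).trans ?_
          have := h2 j
          have := h02 j
          linarith
      · rintro ⟨q, y⟩ ha ⟨q', y'⟩ ha' hyy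
        simp only [Finset.coe_filter, Set.mem_ofPred_eq] at ha ha' hyy
        have h4 := ha.2.trans ha'.2.symm
        have hq : q = q' := congrArg Prod.fst h4
        have hy : ∀ l : Fin 9, y l.castSucc = y' l.castSucc := fun l =>
          congrFun (congrArg Prod.snd h4) l
        have hl : y (Fin.last 9) = y' (Fin.last 9) := by omega
        have : y = y' := by
          funext l
          refine Fin.lastCases hl hy l
        rw [hq, this]

lemma box_vol (q Q : ℕ) (hQ : 1 ≤ Q) (hq : Q ≤ q) (y : Fin 10 → ℤ) (ψ : ℝ) (hψ : 0 < ψ) :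
    volume {x : Fin 10 → ℝ | ∀ l, |(q : ℝ) * x l - y l| < ψ} ≤
      ENNReal.ofReal ((2 * ψ / Q) ^ 10) := by
  have hQ0 : (0 : ℝ) < Q := by exact_mod_cast hQ
  have hq0 : (0 : ℝ) < q := by exact_mod_cast (by omega : 0 < q)
  have hqQ : (Q : ℝ) ≤ q := by exact_mod_cast hq
  have h1 : {x : Fin 10 → ℝ | ∀ l, |(q : ℝ) * x l - y l| < ψ} =
      Set.pi Set.univ fun l => Set.Ioo (((y l : ℝ) - ψ) / q) (((y l : ℝ) + ψ) / q) := by
    ext x
    simp only [Set.mem_ofPred_eq, Set.mem_pi, Set.mem_univ, true_implies, Set.mem_Ioo]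
    refine forall_congr' fun l => ?_
    rw [abs_lt, div_lt_iff₀ hq0, lt_div_iff₀ hq0]
    constructor
    · rintro ⟨h1, h2⟩; constructor <;> linarith
    · rintro ⟨h1, h2⟩; constructor <;> linarith
  rw [h1, Real.volume_pi_Ioo]
  have h2 : ∀ l : Fin 10, ENNReal.ofReal (((y l : ℝ) + ψ) / q - ((y l : ℝ) - ψ) / q) ≤
      ENNReal.ofReal (2 * ψ / Q) := by
    intro l
    apply ENNReal.ofReal_le_ofReal
    have : ((y l : ℝ) + ψ) / q - ((y l : ℝ) - ψ) / q = 2 * ψ / q := by ring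
    rw [this]
    exact div_le_div_of_nonneg_left (by positivity) hQ0 hqQ
  calc ∏ l : Fin 10, ENNReal.ofReal (((y l : ℝ) + ψ) / q - ((y l : ℝ) - ψ) / q)
      ≤ ∏ _l : Fin 10, ENNReal.ofReal (2 * ψ / Q) := Finset.prod_le_prod' fun l _ => h2 l
    _ = ENNReal.ofReal ((2 * ψ / Q) ^ 10) := by
        rw [Finset.prod_const, Finset.card_univ, Fintype.card_fin,
          ENNReal.ofReal_pow (by positivity)]

theorem vol : S_vol := by
  intro A hA R i ψ hR hψ hψ1
  set Q : ℕ := 2 ^ i with hQdef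
  have hQ : 1 ≤ Q := Nat.one_le_two_pow
  have hQR : (1 : ℝ) ≤ (Q : ℝ) * R := by
    have : 1 ≤ Q * R := Nat.mul_pos (by omega) (by omega)
    exact_mod_cast this
  have hQ0 : (1 : ℝ) ≤ Q := by exact_mod_cast hQ
  have hR0 : (1 : ℝ) ≤ R := by exact_mod_cast hR
  have hsub : {x : Fin 10 → ℝ | (∀ l, |x l| ≤ R) ∧ ∃ q : ℕ, Q ≤ q ∧
      q < 2 ^ (i + 1) ∧ ∀ j, nrm (q * pt A x j) < ψ} ⊆
      ⋃ a ∈ II A R Q ψ, {x : Fin 10 → ℝ | ∀ l, |(a.1 : ℝ) * x l - a.2 l| < ψ} := by
    rintro x ⟨hx, q, hq1, hq2, hq⟩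
    have hq2' : q < 2 * Q := by rw [hQdef, ← pow_succ']; exact hq2
    have hqr : (q : ℝ) ≤ 2 * Q := by exact_mod_cast hq2'.le
    have hl : ∀ l : Fin 10, |(q : ℝ) * x l - (round ((q : ℝ) * x l) : ℝ)| < ψ := by
      intro l
      have := hq (Fin.castAdd 2 l)
      unfold pt at this
      rw [Fin.append_left] at this
      exact this
    have hj : ∀ j : Fin 2, |(q : ℝ) * aff A j x - (round ((q : ℝ) * aff A j x) : ℝ)| < ψ := by
      intro j
      have := hq (Fin.natAdd 10 j)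
      unfold pt at this
      rw [Fin.append_right] at this
      exact this
    rw [Set.mem_iUnion₂]
    refine ⟨(q, fun l => round ((q : ℝ) * x l)), ?_, hl⟩
    simp only [II, Finset.mem_filter, Finset.mem_product, Fintype.mem_piFinset,
      Finset.mem_Icc, Finset.mem_Ico]
    refine ⟨⟨⟨hq1, hq2'⟩, fun l => ?_⟩, fun j => ?_⟩
    · have h1 := abs_lt.1 (hl l)
      have h2 := abs_le.1 (hx l)
      have hq0 : (0 : ℝ) ≤ q := by positivity
      have h3 : |(q : ℝ) * x l| ≤ 2 * Q * R := by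
        rw [abs_mul, abs_of_nonneg hq0]
        exact mul_le_mul hqr (hx l) (abs_nonneg _) (by positivity)
      have h4 := abs_le.1 h3
      constructor
      · have : (-(3 * Q * R) : ℝ) ≤ (round ((q : ℝ) * x l) : ℝ) := by nlinarith
        exact_mod_cast this
      · have : (round ((q : ℝ) * x l) : ℝ) ≤ (3 * Q * R : ℝ) := by nlinarith
        exact_mod_cast this
    · refine (nrm_le _ (round ((q : ℝ) * aff A j x))).trans ?_
      have h1 : ze A j (q, fun l => round ((q : ℝ) * x l)) - (round ((q : ℝ) * aff A j x) : ℝ) =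
          ((q : ℝ) * aff A j x - (round ((q : ℝ) * aff A j x) : ℝ)) -
          ∑ l : Fin 10, A j l.succ * ((q : ℝ) * x l - (round ((q : ℝ) * x l) : ℝ)) := by
        unfold ze aff
        simp only [mul_sub, Finset.sum_sub_distrib, mul_add, Finset.mul_sum]
        have h2 : ∑ l : Fin 10, (q : ℝ) * (A j l.succ * x l) =
            ∑ l : Fin 10, A j l.succ * ((q : ℝ) * x l) :=
          Finset.sum_congr rfl fun l _ => by ring
        rw [h2]; ring
      rw [h1]
      have h3 : |∑ l : Fin 10, A j l.succ * ((q : ℝ) * x l - (round ((q : ℝ) * x l) : ℝ))| ≤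
          ∑ _l : Fin 10, ψ := by
        refine (Finset.abs_sum_le_sum_abs _ _).trans (Finset.sum_le_sum fun l _ => ?_)
        rw [abs_mul]
        calc |A j l.succ| * |(q : ℝ) * x l - (round ((q : ℝ) * x l) : ℝ)| ≤ 1 * ψ :=
              mul_le_mul (hA _ _) (hl l).le (abs_nonneg _) zero_le_one
          _ = ψ := one_mul _
      simp only [Finset.sum_const, Finset.card_univ, Fintype.card_fin, nsmul_eq_mul] at h3
      push_cast at h3
      refine (abs_sub _ _).trans ?_
      have := (hj j).le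
      linarith
  have hcard := card_II A R Q ψ
  have hc' : ((II A R Q ψ).card : ℝ) ≤ (cnt (fun j => A j 10) (8 * R * Q) (22 * ψ) : ℝ) *
      (Q * (6 * Q * R + 1) ^ 9) := by exact_mod_cast hcard
  set N : ℕ := cnt (fun j => A j 10) (8 * R * Q) (22 * ψ) with hN
  calc volume {x : Fin 10 → ℝ | (∀ l, |x l| ≤ R) ∧ ∃ q : ℕ, Q ≤ q ∧
      q < 2 ^ (i + 1) ∧ ∀ j, nrm (q * pt A x j) < ψ}
      ≤ volume (⋃ a ∈ II A R Q ψ, {x : Fin 10 → ℝ | ∀ l, |(a.1 : ℝ) * x l - a.2 l| < ψ}) :=
        measure_mono hsub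
    _ ≤ ∑ a ∈ II A R Q ψ, volume {x : Fin 10 → ℝ | ∀ l, |(a.1 : ℝ) * x l - a.2 l| < ψ} :=
        measure_biUnion_finset_le _ _
    _ ≤ ∑ a ∈ II A R Q ψ, ENNReal.ofReal ((2 * ψ / Q) ^ 10) := by
        apply Finset.sum_le_sum
        intro a ha
        simp only [II, Finset.mem_filter, Finset.mem_product, Finset.mem_Ico] at ha
        exact box_vol a.1 Q hQ ha.1.1.1 a.2 ψ hψ
    _ = ENNReal.ofReal ((II A R Q ψ).card * (2 * ψ / Q) ^ 10) := by
        rw [Finset.sum_const, nsmul_eq_mul, ENNReal.ofReal_mul (by positivity),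
          ENNReal.ofReal_natCast]
    _ ≤ ENNReal.ofReal ((100 * R) ^ 10 * ψ ^ 10 * N) := by
        apply ENNReal.ofReal_le_ofReal
        have h7 : (6 * (Q : ℝ) * R + 1) ^ 9 ≤ (7 * (Q * R)) ^ 9 :=
          pow_le_pow_left₀ (by positivity) (by linarith) 9
        calc ((II A R Q ψ).card : ℝ) * (2 * ψ / Q) ^ 10
            ≤ ((N : ℝ) * (Q * (6 * Q * R + 1) ^ 9)) * (2 * ψ / Q) ^ 10 :=
              mul_le_mul_of_nonneg_right hc' (by positivity)
          _ ≤ ((N : ℝ) * (Q * (7 * (Q * R)) ^ 9)) * (2 * ψ / Q) ^ 10 := by gcongr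
          _ = (7 ^ 9 * 2 ^ 10) * ((N : ℝ) * ψ ^ 10 * R ^ 9) := by
              have : (Q : ℝ) ≠ 0 := by positivity
              field_simp
          _ ≤ (100 ^ 10) * ((N : ℝ) * ψ ^ 10 * R ^ 10) := by
              apply mul_le_mul (by norm_num) _ (by positivity) (by positivity)
              apply mul_le_mul_of_nonneg_left _ (by positivity)
              exact pow_le_pow_right₀ hR0 (by norm_num)
          _ = (100 * R) ^ 10 * ψ ^ 10 * N := by ring

end Pool.Agent.W141.KT
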